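import Pool.Agent.Q209.WD.Fin

/-!
# A compact scattered space which is hereditarily wD and not bisequential, in ZFC

The theorem is proved in ZFC. The space is the one-point compactification of a space of the
kind `Ψ`: the isolated points are the pairs `(k, n)` with `k` below the cardinal `κ = 𝔠⁺` and
`n` a natural number, and the other points are the members of an almost disjoint family of
countable sets.

* By club guessing, each `d < κ` of countable cofinality has a ladder `L d` of type `ω`, and
  each closed unbounded subset of `κ` contains some ladder.
* For each such `d`, the tables `y : ℕ → κ × ℕ` with `L d n < (y n).1 < L d (n + 1)`,
  `(y n).2 ≤ n` and `(y n).2 → ∞` are coded by branches `c` of the binary tree (there are at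
  most `𝔠` of them), and the set with index `(d, c)` consists of the points `y n` where `n` runs
  through the codes of the nodes of the branch `c`.
* Almost disjointness is clear from the levels for different `d`, and from the tree for one `d`.
* Each infinite set of indices contains a sequence `i_m` whose sets have pairwise disjoint
  cofinite subsets `B_m` with `A_i ∩ ⋃ B_m` finite for all other `i`. (If the levels `d_m`
  increase to `d`, remove from `A_{i_m}` the points `(k, n)` with `k ≤ L d j` or `n ≤ j` for
  those `j` with `L d j < d_m`: this makes `B_m` disjoint from all sets with level `d`.
  On one level use branches converging to a branch.) This gives wD for all subspaces and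
  the Fréchet-Urysohn property.
* If a function `F : κ × ℕ → ℕ` is not bounded modulo the ideal generated by the sets
  `{k ≤ k₀}` and `{n < n₀}`, then `F` is unbounded on some set of the family (club guessing).
  Hence no ultrafilter which contains the complements of the sets in the ideal contains a
  decreasing sequence converging to the point at infinity.
-/

set_option autoImplicit false

namespace Pool.Agent.Results.MP_88e59f_gt.ZFCNotBisequential

open Pool.Agent.Q209.WD

/-- There is a compact Hausdorff scattered space which has property wD hereditarily and is not
bisequential. Moreover it is a Fréchet-Urysohn space, and all its points but one have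
countable compact open neighbourhoods. -/
theorem result : ∃ (X : Type) (_ : TopologicalSpace X), T2Space X ∧ CompactSpace X ∧
    Scattered X ∧ FrechetUrysohnSpace X ∧
    (∃ p : X, ∀ x : X, x ≠ p → ∃ U : Set X, IsOpen U ∧ IsCompact U ∧ U.Countable ∧ x ∈ U) ∧
    HereditarilyWD X ∧ ¬ Bisequential X :=
  main

end Pool.Agent.Results.MP_88e59f_gt.ZFCNotBisequential
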